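import Pool.Agent.W967.Rig.Fin

set_option autoImplicit false

/-!
# Circulants of finite abelian groups over a finite field are never Valiant-rigid

For every finite field `F` and `ε > 0` there is `γ > 0` such that for all finite abelian groups `G`
of large order `N`, without any condition on `gcd(|G|, |F|)`, and all functions `f : G → F` the
`G`-circulant matrix of `f` differs in at most `N ^ (1 + ε)` entries from a matrix of rank at most
`N ^ (1 - γ)`.  In particular no family of `G`-circulant matrices over `F` is Valiant-rigid.

Proof.  `G` is a product of small cyclic groups (of order at most a constant) and of large ones.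

* A matrix on tuples of digits is called graded if the Hamming distance of the indices of every
  nonzero entry is at most the difference of an additive weight.  By Hoeffding's inequality the
  weight is nearly constant outside of a small set of rows and columns, and so a graded matrix is
  the sum of a sparse matrix and of a matrix of small rank.
* The circulants of a small cyclic group are simultaneously lower triangular in the basis of the
  partial products of `X ^ n - 1 = ∏ (X - r_i)`, and the change of the basis is unitriangular.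
* An element of a large cyclic group is written with digits to a constant base.  A multilevel
  Toeplitz matrix becomes diagonal by evaluation of polynomials at the points of an
  `𝔽_p`-subspace of dimension `m` of a finite field `K ⊇ F`.  The powers `a ^ j` are monomials in
  the `a ^ (p ^ i)`, which are linear forms of the coordinates of `a`.  The linear change of
  variables is a product of `2 log₂ m + O(1)` changes which add to one block of the variables only
  variables of the complementary block, and each of them is given on monomials by a graded matrix;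
  the exceptional set is so small that the loss of a constant factor for each digit does not
  matter.
* Finally one descends from `K` to `F`.
-/

namespace Pool.Agent.Results.MP_d64ee4_lc.AllAbelianNotRigid

open Filter Topology

/-- The matrix `M` is `(r, s)`-rigid: every matrix over the same field of rank at most `r` differs
from `M` in at least `s` entries. -/
def Rigid {F : Type} [Field F] {m : Type} [Fintype m] (M : Matrix m m F) (r s : ℝ) : Prop :=
  ∀ B : Matrix m m F, (B.rank : ℝ) ≤ r →
    s ≤ ({q : m × m | M q.1 q.2 ≠ B q.1 q.2}.ncard : ℝ)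

/-- The family of the square matrices `M i` is Valiant-rigid: there is `ε > 0` such that for every
constant `c > 0` every sufficiently large `N × N` member of the family is
`(c N / log log N, N ^ (1 + ε))`-rigid. -/
def ValiantRigid {F : Type} [Field F] {I : Type} {m : I → Type} [∀ i, Fintype (m i)]
    (M : ∀ i, Matrix (m i) (m i) F) : Prop :=
  ∃ ε : ℝ, 0 < ε ∧ ∀ c : ℝ, 0 < c → ∃ N₀ : ℕ, ∀ i, N₀ ≤ Fintype.card (m i) →
    Rigid (M i) (c * Fintype.card (m i) / Real.log (Real.log (Fintype.card (m i))))
      ((Fintype.card (m i) : ℝ) ^ (1 + ε))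

theorem result :
    (∀ (F : Type) [Field F] [Finite F] (ε : ℝ), 0 < ε → ∃ γ : ℝ, 0 < γ ∧ ∃ N₀ : ℕ,
      ∀ (G : Type) [AddCommGroup G] [Fintype G] (f : G → F), N₀ ≤ Fintype.card G →
        ∃ B : Matrix G G F, (B.rank : ℝ) ≤ (Fintype.card G : ℝ) ^ (1 - γ) ∧
          ({q : G × G | Matrix.circulant f q.1 q.2 ≠ B q.1 q.2}.ncard : ℝ) ≤
            (Fintype.card G : ℝ) ^ (1 + ε)) ∧
    (∀ (F : Type) [Field F] [Finite F] (I : Type) (G : I → Type) [∀ i, AddCommGroup (G i)]
      [∀ i, Fintype (G i)] (f : ∀ i, G i → F), (∀ n : ℕ, ∃ i, n ≤ Fintype.card (G i)) →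
        ¬ ValiantRigid (fun i => Matrix.circulant (f i))) := by
  refine ⟨fun F _ _ ε hε => Pool.Agent.W967.Rig.main_group F ε hε, ?_⟩
  rintro F _ _ I G _ _ f hG ⟨ε, hε, h⟩
  obtain ⟨γ, hγ, N₁, hN₁⟩ := Pool.Agent.W967.Rig.main_group F (ε / 2) (by positivity)
  obtain ⟨N₂, hN₂⟩ := h 1 one_pos
  -- `N ^ (1 - γ) ≤ N / log log N`
  have t1 : Tendsto (fun x : ℝ => Real.log x / x ^ γ) atTop (𝓝 0) :=
    (isLittleO_log_rpow_atTop hγ).tendsto_div_nhds_zero
  have t2 := (t1.comp tendsto_natCast_atTop_atTop).eventually (gt_mem_nhds one_pos)
  obtain ⟨N₃, hN₃⟩ := t2.exists_forall_of_atTop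
  obtain ⟨N₄, hN₄⟩ := ((Real.tendsto_log_atTop.comp
    tendsto_natCast_atTop_atTop).eventually_ge_atTop (Real.exp 1)).exists_forall_of_atTop
  obtain ⟨i, hi⟩ := hG (max (max N₁ N₂) (max (max N₃ N₄) 2))
  have hi1 : N₁ ≤ Fintype.card (G i) := ((le_max_left _ _).trans (le_max_left _ _)).trans hi
  have hi2 : N₂ ≤ Fintype.card (G i) := ((le_max_right _ _).trans (le_max_left _ _)).trans hi
  have hi3 : N₃ ≤ Fintype.card (G i) :=
    (((le_max_left _ _).trans (le_max_left _ _)).trans (le_max_right _ _)).trans hi
  have hi4 : N₄ ≤ Fintype.card (G i) :=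
    (((le_max_right _ _).trans (le_max_left _ _)).trans (le_max_right _ _)).trans hi
  have hi5 : 2 ≤ Fintype.card (G i) := ((le_max_right _ _).trans (le_max_right _ _)).trans hi
  set N : ℕ := Fintype.card (G i) with hN
  have hNr : (2 : ℝ) ≤ N := by exact_mod_cast hi5
  have hN0 : (0 : ℝ) < N := by linarith
  have hN1 : (1 : ℝ) < N := by linarith
  obtain ⟨B, hB1, hB2⟩ := hN₁ (G i) (f i) hi1
  have h3 := hN₃ N hi3
  have h4 := hN₄ N hi4
  simp only [Function.comp] at h3 h4
  have hll : 1 ≤ Real.log (Real.log N) := by
    rw [Real.le_log_iff_exp_le (lt_of_lt_of_le (Real.exp_pos 1) h4)]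
    exact h4
  have hlog : Real.log (Real.log N) ≤ Real.log N := by
    have : 0 < Real.log (N : ℝ) := Real.log_pos hN1
    exact (Real.log_le_sub_one_of_pos this).trans (by linarith)
  have hrank : (B.rank : ℝ) ≤ 1 * N / Real.log (Real.log N) := by
    refine hB1.trans ?_
    rw [one_mul, le_div_iff₀ (by linarith), Real.rpow_sub hN0, Real.rpow_one]
    rw [div_lt_one (by positivity)] at h3
    have h5 : Real.log (Real.log N) ≤ (N : ℝ) ^ γ := hlog.trans h3.le
    rw [div_mul_eq_mul_div, div_le_iff₀ (by positivity)]
    exact mul_le_mul_of_nonneg_left h5 hN0.le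
  have h6 := hN₂ i hi2 B hrank
  have h7 := h6.trans hB2
  have h8 : (N : ℝ) ^ (1 + ε / 2) < (N : ℝ) ^ (1 + ε) :=
    Real.rpow_lt_rpow_of_exponent_lt hN1 (by linarith)
  linarith

end Pool.Agent.Results.MP_d64ee4_lc.AllAbelianNotRigid
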